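import Pool.Agent.MP_9ab903_nt.NG.HDefs
import Pool.Agent.MP_9ab903_nt.TWR.TW1

set_option autoImplicit false

open NumberField IsDedekindDomain
open CM27 CMT CF NAB
open scoped Classical Matrix

namespace TWQ

/-! ## [TWQ-D1] the discriminant of `k` and the determinant of a `ℤ[ω]`-basis of `k(ω)` (file TWQ/D1.lean)

`F = k(ω)`, `[F : k] = 2`, `ω ∉ k`. The embeddings `s j` (`j ≤ r`, `r + 1 = [k : ℚ]`) of `F` with `s j ω = ω` restrict to
pairwise different embeddings of `k` (an embedding of `F` is determined by its values on `k` and at `ω`: `F = k ⊔ ℚ(ω)` by degrees), so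
to all embeddings. Let `b` be an integral basis of `k` (`NumberField.RingOfIntegers.basis`, reindexed by `Fin (r + 1)`),
`b i = ∑ l, eF F hw (a i l) * θ l` (`IsDel.basis`). So `s j (b i) = ∑ emb (a i l) * s j (θ l)` and `det (s j (b i)) = δ * emb (det a)`; its
square is `discr k` (`Algebra.discr_eq_det_embeddingsMatrixReindex_pow_two`, `NumberField.discr`). (`s j (eF F hw x : F) = emb x`: see the
NG files, e.g. the folder NG.) -/

/-- `F = k + k ω` -/
theorem d1_repr (k F : IntermediateField ℚ ℂ) [NumberField k] (hle : k ≤ F)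
    (hw : w ∈ F) (hwk : w ∉ k) (hF : Module.finrank ℚ F = 2 * Module.finrank ℚ k) (x : F) :
    ∃ a b : k, x = IntermediateField.inclusion hle a + IntermediateField.inclusion hle b * ⟨w, hw⟩ := by
  letI := TWR.algI hle
  haveI : Algebra.IsQuadraticExtension k F := TWR.quadI hle hF
  have hli : LinearIndependent k ![(1 : F), ⟨w, hw⟩] := by
    rw [LinearIndependent.pair_iff]
    intro s t hst
    have h1 : IntermediateField.inclusion hle s * 1 + IntermediateField.inclusion hle t * ⟨w, hw⟩ = 0 := hst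
    have h2 : (s : ℂ) * 1 + (t : ℂ) * w = 0 := congrArg (fun z : F => (z : ℂ)) h1
    have ht : t = 0 := by
      by_contra ht
      apply hwk
      have ht' : (t : ℂ) ≠ 0 := by exact_mod_cast ht
      have h3 : w = ((-s / t : k) : ℂ) := by
        have h4 : ((-s / t : k) : ℂ) = -(s : ℂ) / (t : ℂ) := rfl
        rw [h4, eq_div_iff ht']
        linear_combination h2
      rw [h3]
      exact (-s / t).2
    refine ⟨?_, ht⟩
    rw [ht] at h2
    have h3 : (s : ℂ) = 0 := by
      have h4 : ((0 : k) : ℂ) = 0 := rfl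
      rw [h4] at h2
      linear_combination h2
    exact_mod_cast h3
  have hcard : Fintype.card (Fin 2) = Module.finrank k F := by
    rw [Algebra.IsQuadraticExtension.finrank_eq_two k F]
    rfl
  have hspan := hli.span_eq_top_of_card_eq_finrank hcard
  have hx : x ∈ Submodule.span k (Set.range ![(1 : F), ⟨w, hw⟩]) := by
    rw [hspan]
    exact Submodule.mem_top
  rw [Matrix.range_cons, Matrix.range_cons, Matrix.range_empty, Set.union_empty,
    Set.singleton_union, Submodule.mem_span_pair] at hx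
  obtain ⟨a, b, hab⟩ := hx
  refine ⟨a, b, ?_⟩
  rw [← hab]
  change IntermediateField.inclusion hle a * 1 + IntermediateField.inclusion hle b * ⟨w, hw⟩ = _
  rw [mul_one]

theorem d1_eF {r : ℕ} (F : IntermediateField ℚ ℂ) [NumberField F] (hw : w ∈ F)
    (s : Fin (r + 1) → F →+* ℂ) (hs : NG.IsS F hw s) (j : Fin (r + 1)) (a : Eis) :
    s j ((eF F hw a : 𝓞 F) : F) = emb a := by
  have h1 : ((eF F hw a : 𝓞 F) : F) = (a.re : F) + (a.im : F) * ⟨w, hw⟩ := by
    apply Subtype.ext
    change emb a = _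
    rw [emb_apply]
    simp
  rw [h1, map_add, map_mul, map_intCast, map_intCast, hs.fix, emb_apply]

theorem det_rel {r : ℕ} (k F : IntermediateField ℚ ℂ) [NumberField k] [NumberField F] (hle : k ≤ F)
    (hw : w ∈ F) (hwk : w ∉ k) (hk : Module.finrank ℚ k = r + 1)
    (hF : Module.finrank ℚ F = 2 * Module.finrank ℚ k)
    (s : Fin (r + 1) → F →+* ℂ) (hs : NG.IsS F hw s) (δ : ℂ) (hδ : NG.IsDel F hw s δ) :
    ∃ a : Eis, (δ * emb a) ^ 2 = ((discr k : ℤ) : ℂ) := by
  obtain ⟨hδ0, θ, hθ, hgen⟩ := hδ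
  -- the embeddings of `k`
  let ι : k →+* F := (IntermediateField.inclusion hle).toRingHom
  let σ : Fin (r + 1) → (k →ₐ[ℚ] ℂ) := fun j => ((s j).comp ι).toRatAlgHom
  have hσ : ∀ j x, σ j x = s j (ι x) := fun j x => rfl
  have hinj : Function.Injective σ := by
    intro i j hij
    apply hs.inj
    ext x
    obtain ⟨a, b, rfl⟩ := d1_repr k F hle hw hwk hF x
    have h1 : ∀ a : k, s i (IntermediateField.inclusion hle a) =
        s j (IntermediateField.inclusion hle a) := by
      intro a
      exact congrArg (fun f : k →ₐ[ℚ] ℂ => f a) hij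
    rw [map_add, map_add, map_mul, map_mul, hs.fix, hs.fix, h1, h1]
  have hbij : Function.Bijective σ := by
    refine (Fintype.bijective_iff_injective_and_card _).2 ⟨hinj, ?_⟩
    rw [AlgHom.card ℚ k ℂ, hk, Fintype.card_fin]
  let e : Fin (r + 1) ≃ (k →ₐ[ℚ] ℂ) := Equiv.ofBijective σ hbij
  have hcard : Fintype.card (Module.Free.ChooseBasisIndex ℤ (𝓞 k)) = r + 1 := by
    rw [← hk, ← Module.finrank_eq_card_basis (NumberField.integralBasis k)]
  let e0 : Module.Free.ChooseBasisIndex ℤ (𝓞 k) ≃ Fin (r + 1) := Fintype.equivFinOfCardEq hcard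
  let b : Fin (r + 1) → 𝓞 k := fun i => RingOfIntegers.basis k (e0.symm i)
  have hdisc : ((discr k : ℤ) : ℂ) = (Algebra.embeddingsMatrixReindex ℚ ℂ
      (fun i => ((b i : 𝓞 k) : k)) e).det ^ 2 := by
    rw [← Algebra.discr_eq_det_embeddingsMatrixReindex_pow_two]
    have h1 := NumberField.coe_discr k
    have h2 : Algebra.discr ℚ (fun i => ((b i : 𝓞 k) : k)) =
        Algebra.discr ℚ (NumberField.integralBasis k) := by
      have h3 : (fun i => ((b i : 𝓞 k) : k)) = (NumberField.integralBasis k) ∘ e0.symm := by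
        funext i
        simp only [b, Function.comp, NumberField.integralBasis_apply]
      rw [h3, Algebra.discr_reindex]
    rw [h2, ← h1]
    simp
  -- integers of `k` in `F`
  have hint : ∀ x : 𝓞 k, ∃ y : 𝓞 F, ((y : 𝓞 F) : F) = ι (x : k) := by
    intro x
    exact ⟨⟨ι (x : k), map_isIntegral_int ι x.2⟩, rfl⟩
  choose y hy using hint
  choose a ha using hgen
  refine ⟨(Matrix.of fun i l => a (y (b i)) l).det, ?_⟩
  have hM : Algebra.embeddingsMatrixReindex ℚ ℂ (fun i => ((b i : 𝓞 k) : k)) e =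
      (emb.mapMatrix (Matrix.of fun i l => a (y (b i)) l)) *
        (Matrix.of fun j i => s j (θ i : F))ᵀ := by
    ext i j
    have h1 : Algebra.embeddingsMatrixReindex ℚ ℂ (fun i => ((b i : 𝓞 k) : k)) e i j =
        s j (ι ((b i : 𝓞 k) : k)) := rfl
    rw [h1, ← hy (b i), Matrix.mul_apply]
    conv_lhs => rw [ha (y (b i))]
    have h2 : (((∑ l, eF F hw (a (y (b i)) l) * θ l : 𝓞 F)) : F) =
        ∑ l, ((eF F hw (a (y (b i)) l) : 𝓞 F) : F) * (θ l : F) := by
      change algebraMap (𝓞 F) F (∑ l, eF F hw (a (y (b i)) l) * θ l) = _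
      rw [map_sum]
      exact Finset.sum_congr rfl fun l _ => map_mul (algebraMap (𝓞 F) F) _ _
    rw [h2, map_sum]
    refine Finset.sum_congr rfl fun l _ => ?_
    rw [map_mul, d1_eF F hw s hs]
    rfl
  rw [hdisc, hM, Matrix.det_mul, Matrix.det_transpose, ← RingHom.map_det, ← hθ]
  ring

end TWQ
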