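import Pool.Agent.MP_9ab903_nt.AN.P1

set_option autoImplicit false

open scoped ComplexConjugate
open Filter Topology MeasureTheory

namespace TWQ

open CM27

/-! ## [TWQ-P1] the real period of `y² = 4 x³ - 1` (file TWQ/P1.lean)

Copy of AN/P1.lean with the real direction instead of the imaginary one. For `t ∈ (0, 1/2)` the point `z = t` is not in the lattice
(`(t : ℂ) ∈ Set.range emb ↔ ∃ n : ℤ, t = n`), `xw t` is real (`xw_conj`), `yw t` is purely imaginary (`yw_conj`; in AN/P1 `yw_conj` and `yw_neg`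
give `yw (i t)` real), so `-(Im y)² = 4 x³ + 1`: `φ(t) = - Re (xw t)` satisfies `4 φ³ - 1 = (Im y)²`, `φ' = Om Im (yw t)` (`xw_deriv`,
`OmC = i Om`), `Im y ≠ 0` on `(0, 1/2)` and `= 0` at `1/2` (`yw_eq_zero_iff`), `φ → + ∞` at `0+` (`xw_sq_tendsto`), `φ` injective
(`xw_eq_iff`). So `φ` maps `(0, 1/2)` bijectively to `{t | 0 < 4 t³ - 1}` and the integral is `∫_0^{1/2} Om |Im y| · 2 / |Im y| = Om`. -/

theorem q1_mem_iff (t : ℝ) : (t : ℂ) ∈ Set.range emb ↔ ∃ n : ℤ, t = n := by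
  have h3 : (0:ℝ) < √3 := by positivity
  constructor
  · rintro ⟨a, ha⟩
    have h1 := emb_re a
    have h2 := emb_im a
    rw [ha] at h1 h2
    simp only [Complex.ofReal_re, Complex.ofReal_im] at h1 h2
    refine ⟨a.re, ?_⟩
    have h4 : (a.im : ℝ) = 0 := by
      rcases mul_eq_zero.1 (show (a.im : ℝ) * √3 = 0 by linarith) with h | h
      · exact h
      · exact absurd h h3.ne'
    rw [h1, h4]
    ring
  · rintro ⟨n, rfl⟩
    refine ⟨⟨n, 0⟩, ?_⟩
    apply Complex.ext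
    · rw [emb_re]
      simp
    · rw [emb_im]
      simp

theorem q1_not_mem (t : ℝ) (h0 : 0 < t) (h1 : t < 1) : (t : ℂ) ∉ Set.range emb := by
  rw [q1_mem_iff]
  rintro ⟨n, rfl⟩
  have h6 : 0 < n := by exact_mod_cast h0
  have h7 : n < 1 := by exact_mod_cast h1
  omega

theorem q1_x_real (t : ℝ) : xw (t : ℂ) = ((xw (t : ℂ)).re : ℂ) := by
  have h := xw_conj (t : ℂ)
  rw [Complex.conj_ofReal] at h
  exact (Complex.conj_eq_iff_re.1 h.symm).symm

theorem q1_y_im (t : ℝ) : yw (t : ℂ) = Complex.I * ((yw (t : ℂ)).im : ℂ) := by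
  have h := yw_conj (t : ℂ)
  rw [Complex.conj_ofReal] at h
  have h2 : (yw (t : ℂ)).re = 0 := by
    have h3 := congrArg Complex.re h
    simp only [Complex.neg_re, Complex.conj_re] at h3
    linarith
  apply Complex.ext
  · simp [h2]
  · simp

theorem q1_weq (t : ℝ) (h0 : 0 < t) (h1 : t < 1) :
    (yw (t : ℂ)).im ^ 2 = 4 * (-(xw (t : ℂ)).re) ^ 3 - 1 := by
  have h := weq _ (q1_not_mem t h0 h1)
  rw [q1_x_real, q1_y_im, mul_pow, Complex.I_sq] at h
  have h2 : -((yw (t : ℂ)).im ^ 2) = 4 * (xw (t : ℂ)).re ^ 3 + 1 := by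
    have h3 : ((-((yw (t : ℂ)).im ^ 2) : ℝ) : ℂ) = ((4 * (xw (t : ℂ)).re ^ 3 + 1 : ℝ) : ℂ) := by
      push_cast
      rw [← h]
      ring
    exact_mod_cast h3
  linear_combination -h2

theorem q1_deriv (t : ℝ) (h0 : 0 < t) (h1 : t < 1) :
    HasDerivAt (fun t : ℝ => -(xw (t : ℂ)).re) (Om * (yw (t : ℂ)).im) t := by
  have h := xw_deriv _ (q1_not_mem t h0 h1)
  have h4 := h.real_of_complex.neg
  refine h4.congr_deriv ?_
  rw [q1_y_im t, OmC]
  have : Complex.I * (Om : ℂ) * (Complex.I * ((yw (t : ℂ)).im : ℂ)) =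
      ((-(Om * (yw (t : ℂ)).im) : ℝ) : ℂ) := by
    push_cast
    linear_combination ((Om : ℂ) * ((yw (t : ℂ)).im : ℂ)) * Complex.I_mul_I
  rw [this, Complex.ofReal_re]
  simp

theorem q1_y_ne (t : ℝ) (h0 : 0 < t) (h1 : t < 1 / 2) : (yw (t : ℂ)).im ≠ 0 := by
  intro h
  have h4 : yw (t : ℂ) = 0 := by rw [q1_y_im, h, Complex.ofReal_zero, mul_zero]
  rw [yw_eq_zero_iff _ (q1_not_mem t h0 (by linarith))] at h4
  rw [show 2 * (t:ℂ) = ((2 * t : ℝ) : ℂ) by push_cast; ring] at h4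
  exact q1_not_mem (2 * t) (by linarith) (by linarith) h4

theorem q1_y_half : (yw (((1:ℝ) / 2 : ℝ) : ℂ)).im = 0 := by
  have h4 : yw (((1:ℝ) / 2 : ℝ) : ℂ) = 0 := by
    rw [yw_eq_zero_iff _ (q1_not_mem _ (by norm_num) (by norm_num))]
    rw [show 2 * (((1:ℝ) / 2 : ℝ) : ℂ) = ((1 : ℝ) : ℂ) by push_cast; ring, q1_mem_iff]
    exact ⟨1, by simp⟩
  rw [h4, Complex.zero_im]

theorem q1_inj : Set.InjOn (fun t : ℝ => -(xw (t : ℂ)).re) (Set.Ioo 0 (1 / 2)) := by
  intro s hs t ht hst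
  have h1 : xw (s : ℂ) = xw (t : ℂ) := by
    rw [q1_x_real s, q1_x_real t]
    exact congrArg _ (neg_injective hst)
  rw [xw_eq_iff _ _ (q1_not_mem s hs.1 (by linarith [hs.2])) (q1_not_mem t ht.1
    (by linarith [ht.2]))] at h1
  rcases h1 with h1 | h1
  · rw [show (s:ℂ) - t = ((s - t : ℝ) : ℂ) by push_cast; ring, q1_mem_iff] at h1
    obtain ⟨n, hn⟩ := h1
    have a1 : (-1:ℝ) < n := by
      rw [← hn]
      linarith [hs.1, ht.2]
    have a2 : (n:ℝ) < 1 := by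
      rw [← hn]
      linarith [hs.2, ht.1]
    have a3 : -1 < n := by exact_mod_cast a1
    have a4 : n < 1 := by exact_mod_cast a2
    have a5 : n = 0 := by omega
    rw [a5] at hn
    simp at hn
    linarith
  · rw [show (s:ℂ) + t = ((s + t : ℝ) : ℂ) by push_cast; ring] at h1
    exact absurd h1 (q1_not_mem _ (by linarith [hs.1, ht.1]) (by linarith [hs.2, ht.2]))

theorem q1_tendsto : Tendsto (fun t : ℝ => -(xw (t : ℂ)).re) (𝓝[>] 0) atTop := by
  have hO := Om_pos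
  have h1 : Tendsto (fun t : ℝ => (t:ℂ)) (𝓝[>] 0) (𝓝[≠] 0) := by
    rw [tendsto_nhdsWithin_iff]
    constructor
    · have : Tendsto (fun t : ℝ => (t:ℂ)) (𝓝 0) (𝓝 ((0:ℝ):ℂ)) :=
        (Continuous.tendsto (by fun_prop) 0)
      rw [Complex.ofReal_zero] at this
      exact this.mono_left nhdsWithin_le_nhds
    · filter_upwards [self_mem_nhdsWithin] with t ht
      have ht' : (0:ℝ) < t := ht
      simp [ht'.ne']
  have h2 := xw_sq_tendsto.comp h1
  have h3 : Tendsto (fun t : ℝ => t ^ 2 * (-(xw (t : ℂ)).re)) (𝓝[>] 0) (𝓝 (1 / Om ^ 2)) := by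
    have h4 := (Complex.continuous_re.tendsto _).comp h2
    have h5 := h4.neg
    have h6 : -(1 / OmC ^ 2).re = 1 / Om ^ 2 := by
      rw [OmC, mul_pow, Complex.I_sq]
      rw [show (1:ℂ) / (-1 * (Om:ℂ) ^ 2) = ((-(1 / Om ^ 2) : ℝ) : ℂ) by push_cast; ring]
      rw [Complex.ofReal_re, neg_neg]
    rw [h6] at h5
    refine h5.congr fun t => ?_
    simp only [Function.comp_apply]
    rw [q1_x_real t,
      show (t:ℂ) ^ 2 * ((xw (t : ℂ)).re : ℂ) = ((t ^ 2 * (xw (t : ℂ)).re : ℝ) : ℂ) by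
        push_cast; ring]
    rw [Complex.ofReal_re, Complex.ofReal_re]
    ring
  have h7 : Tendsto (fun t : ℝ => (t ^ 2)⁻¹) (𝓝[>] 0) atTop := by
    refine Tendsto.inv_tendsto_nhdsGT_zero ?_
    rw [tendsto_nhdsWithin_iff]
    constructor
    · have : Tendsto (fun t : ℝ => t ^ 2) (𝓝 0) (𝓝 (0 ^ 2)) := (continuous_pow 2).tendsto 0
      rw [zero_pow two_ne_zero] at this
      exact this.mono_left nhdsWithin_le_nhds
    · filter_upwards [self_mem_nhdsWithin] with t ht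
      have ht' : (0:ℝ) < t := ht
      exact pow_pos ht' 2
  have h8 := h7.atTop_mul_pos (show (0:ℝ) < 1 / Om ^ 2 by positivity) h3
  refine h8.congr' ?_
  filter_upwards [self_mem_nhdsWithin] with t ht
  have ht' : (0:ℝ) < t := ht
  field_simp

theorem q1_image : (fun t : ℝ => -(xw (t : ℂ)).re) '' (Set.Ioo 0 (1 / 2)) =
    {t : ℝ | 0 < 4 * t ^ 3 - 1} := by
  ext x
  constructor
  · rintro ⟨t, ht, rfl⟩
    simp only [Set.mem_ofPred_eq]
    rw [← q1_weq t ht.1 (by linarith [ht.2])]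
    have := q1_y_ne t ht.1 ht.2
    positivity
  · intro hx
    simp only [Set.mem_ofPred_eq] at hx
    -- value at the end point
    have hend : 4 * (-(xw (((1:ℝ) / 2 : ℝ) : ℂ)).re) ^ 3 - 1 = 0 := by
      rw [← q1_weq (1 / 2) (by norm_num) (by norm_num), q1_y_half]
      norm_num
    have hlt : -(xw (((1:ℝ) / 2 : ℝ) : ℂ)).re < x := by
      by_contra hcon
      push Not at hcon
      have : x ^ 3 ≤ (-(xw (((1:ℝ) / 2 : ℝ) : ℂ)).re) ^ 3 := by
        exact (Odd.strictMono_pow (by decide : Odd 3)).monotone hcon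
      linarith
    obtain ⟨s, hs1, hs2⟩ : ∃ s : ℝ, s ∈ Set.Ioo 0 (1 / 2) ∧ x < -(xw (s : ℂ)).re := by
      have e1 := q1_tendsto.eventually_gt_atTop x
      have e2 : ∀ᶠ s : ℝ in 𝓝[>] 0, s ∈ Set.Ioo (0:ℝ) (1 / 2) :=
        Ioo_mem_nhdsGT (by norm_num)
      obtain ⟨s, h1, h2⟩ := (e1.and e2).exists
      exact ⟨s, h2, h1⟩
    have hcont : ContinuousOn (fun t : ℝ => -(xw (t : ℂ)).re) (Set.Icc s (1 / 2)) := by
      intro t ht
      exact (q1_deriv t (by linarith [hs1.1, ht.1]) (by linarith [ht.2])).continuousAt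
        |>.continuousWithinAt
    have := intermediate_value_Icc' hs1.2.le hcont
    obtain ⟨t, ht, htx⟩ := this ⟨hlt.le, hs2.le⟩
    refine ⟨t, ⟨by linarith [hs1.1, ht.1], lt_of_le_of_ne ht.2 ?_⟩, htx⟩
    rintro rfl
    simp only at htx
    linarith

theorem OmN_eq : ∫ t in {t : ℝ | 0 < 4 * t ^ 3 - 1}, 2 / √(4 * t ^ 3 - 1) = Om := by
  have hO := Om_pos
  rw [← q1_image, integral_image_eq_integral_abs_deriv_smul measurableSet_Ioo
    (f' := fun t : ℝ => Om * (yw (t : ℂ)).im)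
    (fun t ht => (q1_deriv t ht.1 (by linarith [ht.2])).hasDerivWithinAt) q1_inj]
  have h1 : ∀ t ∈ Set.Ioo (0:ℝ) (1 / 2), |(Om * (yw (t : ℂ)).im)| •
      (2 / √(4 * (-(xw (t : ℂ)).re) ^ 3 - 1)) = 2 * Om := by
    intro t ht
    rw [← q1_weq t ht.1 (by linarith [ht.2]), Real.sqrt_sq_eq_abs, abs_mul,
      abs_of_pos hO, smul_eq_mul]
    have := abs_pos.2 (q1_y_ne t ht.1 ht.2)
    field_simp
  rw [setIntegral_congr_fun measurableSet_Ioo h1, setIntegral_const]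
  simp only [measureReal_def, Real.volume_Ioo, smul_eq_mul]
  rw [ENNReal.toReal_ofReal (by norm_num)]
  ring

end TWQ
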