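import Pool.Agent.MP_9ab903_nt.TWQ.P1
import Pool.Agent.MP_9ab903_nt.CF3.K5

set_option autoImplicit false

open NumberField
open CM27 CMT CF
open scoped Classical

namespace TWQ

/-! ## [TWQ-P2] the archimedean periods of `y² + y = x³ + e`, `4 e + 1 = d³`, over any number field
(file TWQ/P2.lean) -/

theorem p2_scale (a c : ℝ) (ha : 0 < a) :
    ∫ x in {x : ℝ | 0 < 4 * x ^ 3 + c * a ^ 3}, 2 / √(4 * x ^ 3 + c * a ^ 3) =
      (∫ t in {t : ℝ | 0 < 4 * t ^ 3 + c}, 2 / √(4 * t ^ 3 + c)) / √a := by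
  have hS : MeasurableSet {x : ℝ | 0 < 4 * x ^ 3 + c * a ^ 3} :=
    measurableSet_lt measurable_const (by fun_prop)
  have hT : MeasurableSet {x : ℝ | 0 < 4 * x ^ 3 + c} :=
    measurableSet_lt measurable_const (by fun_prop)
  rw [← MeasureTheory.integral_indicator hS, ← MeasureTheory.integral_indicator hT]
  have h1 := MeasureTheory.Measure.integral_comp_mul_left
    ({x : ℝ | 0 < 4 * x ^ 3 + c * a ^ 3}.indicator fun x => 2 / √(4 * x ^ 3 + c * a ^ 3)) a
  have hsa : √a * √a = a := Real.mul_self_sqrt ha.le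
  have hsa0 : 0 < √a := Real.sqrt_pos.2 ha
  have h2 : (fun x : ℝ => ({x : ℝ | 0 < 4 * x ^ 3 + c * a ^ 3}.indicator
      fun x => 2 / √(4 * x ^ 3 + c * a ^ 3)) (a * x)) =
      fun x => (1 / (a * √a)) * ({x : ℝ | 0 < 4 * x ^ 3 + c}.indicator
        fun t => 2 / √(4 * t ^ 3 + c)) x := by
    funext x
    have h3 : 4 * (a * x) ^ 3 + c * a ^ 3 = (a * a ^ 2) * (4 * x ^ 3 + c) := by ring
    have h4 : 0 < a * a ^ 2 := by positivity
    by_cases hx : 0 < 4 * x ^ 3 + c
    · rw [Set.indicator_of_mem (show a * x ∈ {x : ℝ | 0 < 4 * x ^ 3 + c * a ^ 3} by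
          rw [Set.mem_ofPred_eq, h3]; exact mul_pos h4 hx),
        Set.indicator_of_mem (show x ∈ {x : ℝ | 0 < 4 * x ^ 3 + c} from hx), h3,
        Real.sqrt_mul h4.le, Real.sqrt_mul ha.le, Real.sqrt_sq ha.le]
      have h5 : √(4 * x ^ 3 + c) ≠ 0 := (Real.sqrt_pos.2 hx).ne'
      field_simp
    · rw [Set.indicator_of_notMem (show a * x ∉ {x : ℝ | 0 < 4 * x ^ 3 + c * a ^ 3} by
          rw [Set.mem_ofPred_eq, h3]; exact fun h => hx ((mul_pos_iff_of_pos_left h4).1 h)),
        Set.indicator_of_notMem (show x ∉ {x : ℝ | 0 < 4 * x ^ 3 + c} from hx), mul_zero]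
  rw [h2, MeasureTheory.integral_const_mul, abs_of_pos (inv_pos.2 ha), smul_eq_mul] at h1
  rw [eq_comm, inv_mul_eq_iff_eq_mul₀ ha.ne'] at h1
  rw [h1]
  field_simp

theorem p2_cubic (e x : ℝ) : SBSD.cubic (Wt e) x = 4 * x ^ 3 + (4 * e + 1) := by
  simp only [SBSD.cubic, Wt, WeierstrassCurve.b₂, WeierstrassCurve.b₄, WeierstrassCurve.b₆]
  ring

/-- `cubic (Wt e) x = 4 x³ + δ³`; substitute `x = |δ| t` (compare `complexArea_Wt` in MP_dfae13_nt/T/J6.lean, and
`MeasureTheory.Measure.integral_comp_mul_left` for the indicator function): `δ³ = |δ|³` resp. `-|δ|³`,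
`OmR_eq` (AN/P1: the integral for `4 t³ + 1` is `√3 Om`) resp. `OmN_eq`. -/
theorem realPeriod_Wt (δ e : ℝ) (hδ : δ ≠ 0) (he : 4 * e + 1 = δ ^ 3) :
    SBSD.realPeriod (Wt e) = (if 0 < δ then √3 * Om else Om) / √|δ| := by
  have ha : 0 < |δ| := abs_pos.2 hδ
  unfold SBSD.realPeriod
  simp only [p2_cubic, he]
  split_ifs with h0
  · have h1 := p2_scale |δ| 1 ha
    rw [one_mul, abs_of_pos h0] at h1
    rw [abs_of_pos h0, h1, ← OmR_eq]
    rfl
  · have hneg : δ < 0 := lt_of_le_of_ne (not_lt.1 h0) hδ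
    have h1 := p2_scale |δ| (-1) ha
    have h2 : (-1 : ℝ) * |δ| ^ 3 = δ ^ 3 := by rw [abs_of_neg hneg]; ring
    rw [h2] at h1
    have h3 : ∀ t : ℝ, 4 * t ^ 3 + (-1) = 4 * t ^ 3 - 1 := fun t => by ring
    simp only [h3] at h1
    rw [h1, OmN_eq]

theorem p2_prod_sqrt {ι : Type*} (t : Finset ι) (f : ι → ℝ) (hf : ∀ i, 0 ≤ f i) :
    ∏ i ∈ t, √(f i) = √(∏ i ∈ t, f i) := by
  induction t using Finset.induction_on with
  | empty => simp
  | insert a t ha ih => rw [Finset.prod_insert ha, Finset.prod_insert ha, ih, Real.sqrt_mul (hf a)]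

section
variable (k : Type) [Field k] [NumberField k]

/-- `1` at the complex places and at the real places where `d > 0` -/
noncomputable def p2a (d : k) (v : InfinitePlace k) : ℕ :=
  if h : v.IsReal then (if 0 < InfinitePlace.embedding_of_isReal h d then 1 else 0) else 1

/-- `1` at the real places where `d < 0` -/
noncomputable def p2b (d : k) (v : InfinitePlace k) : ℕ :=
  if h : v.IsReal then (if 0 < InfinitePlace.embedding_of_isReal h d then 0 else 1) else 0

theorem p2ab (d : k) (v : InfinitePlace k) : p2a k d v + p2b k d v = 1 := by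
  unfold p2a p2b
  split_ifs <;> rfl

theorem p2_arch (d e : k) (hd : d ≠ 0) (he : 4 * e + 1 = d ^ 3) (v : InfinitePlace k) :
    SBSD.archPeriod (Wt e) v = √3 ^ p2a k d v * Om ^ v.mult / √(v d ^ v.mult) := by
  by_cases hv : v.IsReal
  · have h3 : InfinitePlace.embedding_of_isReal hv d ≠ 0 := by
      rwa [Ne, map_eq_zero]
    have h4 : 4 * InfinitePlace.embedding_of_isReal hv e + 1 =
        InfinitePlace.embedding_of_isReal hv d ^ 3 := by
      rw [← map_pow, ← he, map_add, map_mul, map_one, map_ofNat]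
    have h5 : v d = |InfinitePlace.embedding_of_isReal hv d| := by
      rw [← Real.norm_eq_abs, InfinitePlace.norm_embedding_of_isReal]
    unfold SBSD.archPeriod p2a
    rw [dif_pos hv, dif_pos hv, tc1_map, realPeriod_Wt _ _ h3 h4, InfinitePlace.mult, if_pos hv,
      pow_one, pow_one, h5]
    split_ifs with h6
    · rw [pow_one]
    · rw [pow_zero, one_mul]
  · have h3 : v.embedding d ≠ 0 := by
      rwa [Ne, map_eq_zero]
    have h4 : 4 * v.embedding e + 1 = v.embedding d ^ 3 := by
      rw [← map_pow, ← he, map_add, map_mul, map_one, map_ofNat]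
    unfold SBSD.archPeriod p2a
    rw [dif_neg hv, dif_neg hv, tc1_map, complexArea_Wt _ (v.embedding d) h3 h4,
      InfinitePlace.norm_embedding_eq, InfinitePlace.mult, if_neg hv, Real.sqrt_sq (apply_nonneg v d),
      OmCC_eq, pow_one]

theorem p2_fib (d : k) (v : InfinitePlace k) :
    ∏ φ ∈ Finset.univ.filter (fun φ : k →+* ℂ => InfinitePlace.mk φ = v), φ d =
      (((-1) ^ p2b k d v * v d ^ v.mult : ℝ) : ℂ) := by
  have hset : Finset.univ.filter (fun φ : k →+* ℂ => InfinitePlace.mk φ = v) =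
      {v.embedding, ComplexEmbedding.conjugate v.embedding} := by
    ext φ
    simp only [Finset.mem_filter, Finset.mem_univ, true_and, Finset.mem_insert,
      Finset.mem_singleton]
    constructor
    · intro h
      have h1 : InfinitePlace.mk φ = InfinitePlace.mk v.embedding := by
        rw [InfinitePlace.mk_embedding, h]
      rcases InfinitePlace.mk_eq_iff.1 h1 with h2 | h2
      · exact Or.inl h2
      · right
        rw [← h2]
        exact (star_star φ).symm
    · rintro (rfl | rfl)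
      · exact InfinitePlace.mk_embedding v
      · rw [InfinitePlace.mk_conjugate_eq, InfinitePlace.mk_embedding]
  rw [hset]
  by_cases hv : v.IsReal
  · have h1 : ComplexEmbedding.conjugate v.embedding = v.embedding :=
      InfinitePlace.conjugate_embedding_eq_of_isReal hv
    rw [h1, Finset.pair_eq_singleton, Finset.prod_singleton]
    have h5 : v d = |InfinitePlace.embedding_of_isReal hv d| := by
      rw [← Real.norm_eq_abs, InfinitePlace.norm_embedding_of_isReal]
    rw [InfinitePlace.mult, if_pos hv, pow_one, h5, ← InfinitePlace.embedding_of_isReal_apply hv]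
    unfold p2b
    rw [dif_pos hv]
    congr 1
    split_ifs with h6
    · rw [pow_zero, one_mul, abs_of_pos h6]
    · rw [pow_one, abs_of_nonpos (not_lt.1 h6)]
      ring
  · have h1 : v.embedding ≠ ComplexEmbedding.conjugate v.embedding := by
      intro h
      apply hv
      rw [InfinitePlace.isReal_iff]
      exact h.symm
    rw [Finset.prod_pair h1]
    unfold p2b
    rw [dif_neg hv, pow_zero, one_mul, InfinitePlace.mult, if_neg hv]
    have h2 : ComplexEmbedding.conjugate v.embedding d = (starRingEnd ℂ) (v.embedding d) := rfl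
    rw [h2, Complex.mul_conj, Complex.normSq_eq_norm_sq, InfinitePlace.norm_embedding_eq]

theorem p2_norm (d : k) : ((Algebra.norm ℚ d : ℚ) : ℝ) =
    (-1) ^ (∑ v, p2b k d v) * |((Algebra.norm ℚ d : ℚ) : ℝ)| := by
  have h1 := Algebra.norm_eq_prod_embeddings ℚ ℂ d
  have h2 : ∏ σ : k →ₐ[ℚ] ℂ, σ d = ∏ φ : k →+* ℂ, φ d :=
    (Fintype.prod_equiv (RingHom.equivRatAlgHom k ℂ) (fun f => f d) (fun φ => φ d)
      fun _ => by simp [RingHom.equivRatAlgHom_apply]).symm
  rw [h2, ← Finset.prod_fiberwise Finset.univ InfinitePlace.mk (fun φ => φ d)] at h1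
  simp only [p2_fib] at h1
  rw [← Complex.ofReal_prod, eq_ratCast, ← Complex.ofReal_ratCast, Complex.ofReal_inj,
    Finset.prod_mul_distrib, Finset.prod_pow_eq_pow_sum, InfinitePlace.prod_eq_abs_norm,
    Rat.cast_abs] at h1
  exact h1

end

/-- The product over all archimedean places and its sign. `j` = number of the real places where `d > 0` plus number of the
complex places. Complex places: `complexArea_Wt`, `OmCC_eq : OmCC = √3 * Om ^ 2` (compare `arch_tw` in CF3/K5.lean and
`period_eq` in TWR/AN2.lean). `∏ |d|_v^{mult v} = |N d|` is `InfinitePlace.prod_eq_abs_norm`; `card_add_two_mul_card_eq_rank`.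
Signs: `NumberField.sign_discr : (discr k).sign = (-1) ^ nrComplexPlaces`, and the sign of `N d` is `(-1)` to the number of
real places with `d < 0` (`Algebra.norm_eq_prod_embeddings`, the embeddings are grouped by `InfinitePlace.mk`: a real place has one
embedding, a complex place the pair `φ, conj φ` with product `|φ d|² > 0`). -/
theorem arch_prod (k : Type) [Field k] [NumberField k] (d e : k) (hd : d ≠ 0)
    (he : 4 * e + 1 = d ^ 3) :
    ∃ j : ℕ, ∏ v : InfinitePlace k, SBSD.archPeriod (Wt e) v =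
        √3 ^ j * Om ^ Module.finrank ℚ k / √|((Algebra.norm ℚ d : ℚ) : ℝ)| ∧
      0 < (-1 : ℚ) ^ (Module.finrank ℚ k + j) * (discr k : ℚ) * Algebra.norm ℚ d := by
  refine ⟨∑ v, p2a k d v, ?_, ?_⟩
  · have h1 : ∀ v : InfinitePlace k, SBSD.archPeriod (Wt e) v =
        √3 ^ p2a k d v * Om ^ v.mult / √(v d ^ v.mult) := p2_arch k d e hd he
    rw [Finset.prod_congr rfl fun v _ => h1 v, Finset.prod_div_distrib, Finset.prod_mul_distrib,
      Finset.prod_pow_eq_pow_sum, Finset.prod_pow_eq_pow_sum, InfinitePlace.sum_mult_eq,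
      p2_prod_sqrt _ _ (fun v => pow_nonneg (apply_nonneg v d) _), InfinitePlace.prod_eq_abs_norm,
      Rat.cast_abs]
  · have hN := p2_norm k d
    have hN0 : (0 : ℝ) < |((Algebra.norm ℚ d : ℚ) : ℝ)| := by
      rw [abs_pos]
      exact_mod_cast (Algebra.norm_ne_zero_iff (R := ℚ)).2 hd
    have hD : ((discr k : ℤ) : ℝ) = (-1) ^ InfinitePlace.nrComplexPlaces k * |((discr k : ℤ) : ℝ)| := by
      have h1 := Int.sign_mul_natAbs (discr k)
      rw [sign_discr] at h1
      have h2 := congrArg (fun z : ℤ => (z : ℝ)) h1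
      rw [← h2]
      push_cast
      rw [abs_mul, abs_pow, abs_neg, abs_one, one_pow, one_mul]
      simp
    have hD0 : (0 : ℝ) < |((discr k : ℤ) : ℝ)| := by
      rw [abs_pos]
      exact_mod_cast discr_ne_zero k
    have hab : ∑ v, p2a k d v + ∑ v, p2b k d v =
        InfinitePlace.nrRealPlaces k + InfinitePlace.nrComplexPlaces k := by
      rw [← Finset.sum_add_distrib, Finset.sum_congr rfl fun v _ => p2ab k d v,
        Finset.sum_const, smul_eq_mul, mul_one, Finset.card_univ,
        InfinitePlace.card_eq_nrRealPlaces_add_nrComplexPlaces]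
    have hn := InfinitePlace.card_add_two_mul_card_eq_rank k
    set a := ∑ v, p2a k d v
    set b := ∑ v, p2b k d v
    have key : (0 : ℝ) < (-1) ^ (Module.finrank ℚ k + a) * ((discr k : ℤ) : ℝ) *
        ((Algebra.norm ℚ d : ℚ) : ℝ) := by
      rw [hD, hN, ← hn]
      have h3 : (-1 : ℝ) ^ (InfinitePlace.nrRealPlaces k + 2 * InfinitePlace.nrComplexPlaces k + a) *
          ((-1) ^ InfinitePlace.nrComplexPlaces k * |((discr k : ℤ) : ℝ)|) *
          ((-1) ^ b * |((Algebra.norm ℚ d : ℚ) : ℝ)|) =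
          (-1) ^ (InfinitePlace.nrRealPlaces k + 2 * InfinitePlace.nrComplexPlaces k + a +
            InfinitePlace.nrComplexPlaces k + b) * (|((discr k : ℤ) : ℝ)| *
            |((Algebra.norm ℚ d : ℚ) : ℝ)|) := by
        rw [pow_add _ _ b, pow_add _ _ (InfinitePlace.nrComplexPlaces k)]
        ring
      rw [h3]
      have h4 : InfinitePlace.nrRealPlaces k + 2 * InfinitePlace.nrComplexPlaces k + a +
            InfinitePlace.nrComplexPlaces k + b = 2 * (InfinitePlace.nrRealPlaces k +
              2 * InfinitePlace.nrComplexPlaces k) := by omega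
      rw [h4, pow_mul, neg_one_sq, one_pow, one_mul]
      exact mul_pos hD0 hN0
    have h5 : (((-1 : ℚ) ^ (Module.finrank ℚ k + a) * (discr k : ℚ) * Algebra.norm ℚ d : ℚ) : ℝ) =
        (-1) ^ (Module.finrank ℚ k + a) * ((discr k : ℤ) : ℝ) * ((Algebra.norm ℚ d : ℚ) : ℝ) := by
      push_cast
      rfl
    rw [← h5] at key
    exact_mod_cast key

end TWQ
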